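import Pool.Agent.MWN.StmtsA

/-!
# Row NIB of MWN: the computable forms
-/

namespace Pool.Agent.MWN.H75

open Pool.Agent.Helper14_MV Pool.Agent.Helper2_MV Pool.Agent.MVO Pool.Agent.MWL Pool.Agent.MWS
  Pool.Agent.MWF Pool.Agent.MWN

theorem mem_mps (f : ℕ → ℕ) (k : ℕ) : ∀ (n s lo : ℕ),
    (∀ i j, s ≤ i → i ≤ j → j < s + n → f i ≤ f j) →
    (∀ i, s ≤ i → i < s + n → lo ≤ f i ∧ f i ≤ k) → (List.range' s n).map f ∈ mps n lo k := by
  intro n
  induction n with
  | zero =>
    intro s lo _ _
    show ([] : List ℕ) ∈ [[]]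
    exact List.mem_singleton.2 rfl
  | succ n ih =>
    intro s lo hm hb
    rw [List.range'_succ, List.map_cons]
    show f s :: (List.range' (s + 1) n).map f ∈
      (List.range' lo (k + 1 - lo)).flatMap (fun x => (mps n x k).map (fun l => x :: l))
    rw [List.mem_flatMap]
    refine ⟨f s, ?_, ?_⟩
    · rw [List.mem_range'_1]
      have := hb s (le_refl s) (by omega)
      omega
    · rw [List.mem_map]
      refine ⟨(List.range' (s + 1) n).map f, ?_, rfl⟩
      apply ih
      · intro i j h1 h2 h3
        exact hm i j (by omega) h2 (by omega)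
      · intro i h1 h2
        exact ⟨hm s i (le_refl s) (by omega) (by omega), (hb i (by omega) (by omega)).2⟩

theorem sum_list (n : ℕ) (g : ℕ → ℕ) :
    ((List.range n).map g).sum = ∑ i ∈ Finset.range n, g i := by
  induction n with
  | zero => rfl
  | succ n ih =>
    rw [List.range_succ, List.map_append, List.sum_append, ih, Finset.sum_range_succ]
    simp

theorem getD_map (f : ℕ → ℕ) (n i : ℕ) (h : i < n) : ((List.range n).map f).getD i 0 = f i := by
  rw [List.getD_eq_getElem?_getD, List.getElem?_map, List.getElem?_range h]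
  rfl

theorem pl_eq (k1 : ℕ) (f a : ℕ → ℕ) (j : ℕ) :
    pl k1 ((List.range (k1 + 1)).map f) a j = psh k1 f a j := by
  unfold pl psh
  rw [sum_list]
  apply Finset.sum_congr rfl
  intro i hi
  rw [getD_map f (k1 + 1) i (Finset.mem_range.1 hi)]

theorem intoB_iff (k1 k : ℕ) (f a : ℕ → ℕ) (A : ℕ → Cd) :
    intoB k1 k ((List.range (k1 + 1)).map f) a A = true ↔ Into k1 k f a A := by
  unfold intoB Into
  rw [List.all_eq_true]
  constructor
  · intro h j hj
    have h1 := h j (List.mem_range.2 (Nat.lt_succ_of_le hj))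
    rwa [pl_eq] at h1
  · intro h j hj
    rw [pl_eq]
    exact h j (Nat.le_of_lt_succ (List.mem_range.1 hj))

theorem bmap_mem {k1 k : ℕ} {f : ℕ → ℕ} (hf : BMap k1 k f) :
    (List.range (k1 + 1)).map f ∈ mps (k1 + 1) 0 k := by
  rw [List.range_eq_range']
  apply mem_mps
  · intro i j _ h2 h3
    exact hf.mono i j h2 (by omega)
  · intro i _ h2
    exact ⟨Nat.zero_le _, hf.le i (by omega)⟩

/-- **NIB** -/
theorem nib : NibStmt := by
  refine ⟨?_, ?_⟩
  · intro k1 k a b A B h f hf
    unfold incB at h
    have h1 := List.all_eq_true.1 h _ (bmap_mem hf)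
    rw [Bool.and_eq_true, Bool.not_eq_true', Bool.not_eq_true', Bool.and_eq_false_iff,
      Bool.and_eq_false_iff] at h1
    constructor
    · rintro ⟨h2, h3⟩
      rw [← intoB_iff] at h2 h3
      rcases h1.1 with h4 | h4
      · rw [h4] at h2
        exact absurd h2 (by decide)
      · rw [h4] at h3
        exact absurd h3 (by decide)
    · rintro ⟨h2, h3⟩
      rw [← intoB_iff] at h2 h3
      rcases h1.2 with h4 | h4
      · rw [h4] at h2
        exact absurd h2 (by decide)
      · rw [h4] at h3
        exact absurd h3 (by decide)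
  · intro k1 k c c' A h f hf
    unfold kapB at h
    have h1 := List.all_eq_true.1 h _ (bmap_mem hf)
    rw [Bool.or_eq_true, Bool.and_eq_true, Bool.not_eq_true', Bool.not_eq_true',
      List.all_eq_true] at h1
    rcases h1 with ⟨h2, h3⟩ | h2
    · left
      constructor
      · intro h4
        rw [← intoB_iff, h2] at h4
        exact absurd h4 (by decide)
      · intro h4
        rw [← intoB_iff, h3] at h4
        exact absurd h4 (by decide)
    · right
      intro j hj
      have h3 := h2 j (List.mem_range.2 (Nat.lt_succ_of_le hj))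
      rwa [pl_eq, pl_eq] at h3

end Pool.Agent.MWN.H75
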